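import Mathlib
import Pool.Agent.Helper94.PO.TAB
import Pool.Agent.Helper86.PO.WCN
import Pool.Agent.Helper91.PO.STA
import Pool.Agent.Helper80.PO.CEL
import Pool.Agent.Helper48.PO.OKR
import Pool.Agent.Helper15.PO.ACS
import Pool.Agent.Helper78.PO.RUN
import Pool.Agent.Helper46.PO.XIU
import Pool.Agent.Helper86.PO.XIN
import Pool.Agent.Helper50.PO.SUX
import Pool.Agent.Helper46.PO.BOX
import Pool.Agent.Helper8.PO.PTL
import Pool.Agent.Helper86.PO.CCN
import Pool.Agent.Helper86.PO.CSM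
import Pool.Agent.Helper8.PO.LIT
import Pool.Agent.Helper15.PO.REX
import Pool.Agent.Helper86.PO.PTV
import Pool.Agent.Helper94.PO.VTL
import Pool.Agent.Helper23.PO.LBC
import Pool.Agent.Helper8.PO.VTP
import Pool.Agent.Helper84.PO.DIS
import Pool.Agent.Helper89.PO.LBE
import Pool.Agent.Helper84.PO.LBU
import Pool.Agent.Helper26.PO.FIN
import Pool.Agent.Helper8.PO.SIG
import Pool.Agent.Helper55.PO.ANC
import Pool.Agent.Helper86.PO.ALG
import Pool.Agent.Helper28.PO.PFLM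
import Pool.Agent.Helper52.PO.PRNG
import Pool.Agent.Helper20.PO.PALL
import Pool.Agent.Helper44.PO.PLAB
import Pool.Agent.Helper48.PO.PWD
import Pool.Agent.Helper84.PO.PNN
import Pool.Agent.Helper58.PO.NUM
import Pool.Agent.Helper92.PO.PSTT
import Pool.Agent.Helper38.PO.PCON
import Pool.Agent.Helper52.PO.PLK
import Pool.Agent.Helper35.PO.PEQ
import Pool.Agent.Helper7.PO.PINJ
import Pool.Agent.Helper77.PO.PALW
import Pool.Agent.Helper89.PO.PNXT
import Pool.Agent.Helper92.PO.PSUM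
import Pool.Agent.Helper92.PO.PACC
import Pool.Agent.Helper26.PO.PLOOK
import Pool.Agent.Helper80.PO.PCEL
import Pool.Agent.Helper92.PO.PTAB
import Pool.Agent.Helper8.PO.PROW
import Pool.Agent.Helper52.PO.PALG
import Pool.Agent.Helper92.PO.TCMP
import Pool.Agent.Helper92.PO.TFOL
import Pool.Agent.Helper92.PO.TPAD
import Pool.Agent.Helper92.PO.TUNA
import Pool.Agent.Helper92.PO.TBIT
import Pool.Agent.Helper55.PO.TLNK
import Pool.Agent.Helper63.PO.TPOL
import Pool.Agent.Helper92.PO.FINAL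

/-!
# Counting fixed polyominoes in time `n ^ O(sqrt n)`

`fixedOminoes n` is the number `t(n)` of fixed `n`-ominoes (edge-connected sets of `n` cells of the
square lattice up to translation). We prove that it is computed by a multitape Turing machine
(Mathlib: `Turing.TM2ComputableInTime`), input `n` in unary, output in binary, in at most
`(n + 2) ^ (C * (sqrt n + 1))` steps for a constant `C`.
-/

namespace Pool.Agent.Results.MP_c7ded2_lc.SubexponentialTime

open Pool.Agent.Helper92.PO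

/-- The number of fixed `n`-ominoes is computable in time `n ^ O(sqrt n)`. -/
theorem result : ∃ C : ℕ,
    ∃ M : Turing.TM2ComputableInTime (fun n : ℕ => List.replicate n true) Nat.bits fixedOminoes,
      ∀ n, M.time n ≤ (n + 2) ^ (C * (Nat.sqrt n + 1)) := by
  have hTAB : ST_TAB := st_TAB
  have hWCN : ST_WCN := st_WCN
  have hSTA : ST_STA := st_STA
  have hCEL : ST_CEL := st_CEL
  have hOKR : ST_OKR := st_OKR hSTA hCEL
  have hACS : ST_ACS := st_ACS hSTA
  have hRUN : ST_RUN := st_RUN hOKR hCEL hSTA hACS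
  have hXIU : ST_XIU := st_XIU
  have hXIN : ST_XIN := st_XIN
  have hSUX : ST_SUX := st_SUX hWCN hRUN hXIU hXIN
  have hBOX : ST_BOX := st_BOX
  have hPTL : ST_PTL := st_PTL hBOX
  have hCCN : ST_CCN := st_CCN
  have hCSM : ST_CSM := st_CSM
  have hLIT : ST_LIT := st_LIT
  have hREX : ST_REX := st_REX hBOX
  have hPTV : ST_PTV := st_PTV hPTL hCCN hCSM hLIT hREX
  have hVTL : ST_VTL := st_VTL
  have hLBC : ST_LBC := st_LBC
  have hVTP : ST_VTP := st_VTP hVTL hCCN hCSM hLIT hLBC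
  have hDIS : ST_DIS := st_DIS
  have hLBE : ST_LBE := st_LBE hDIS
  have hLBU : ST_LBU := st_LBU
  have hFIN : ST_FIN := st_FIN hPTV hVTP hREX hLBE hLBU
  have hSIG : ST_SIG := st_SIG hBOX
  have hANC : ST_ANC := st_ANC
  have hALG : ST_ALG := st_ALG hTAB hSUX hFIN hSIG hANC
  have hPFLM : ST_PFLM := st_PFLM
  have hPRNG : ST_PRNG := st_PRNG
  have hPALL : ST_PALL := st_PALL hPFLM hPRNG
  have hPLAB : ST_PLAB := st_PLAB hPRNG hPFLM
  have hPWD : ST_PWD := st_PWD hPRNG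
  have hPNN : ST_PNN := st_PNN
  have hNUM : ST_NUM := st_NUM
  have hPSTT : ST_PSTT := st_PSTT hPALL hPLAB hPFLM hPRNG hPWD hPNN hNUM
  have hPCON : ST_PCON := st_PCON
  have hPLK : ST_PLK := st_PLK
  have hPEQ : ST_PEQ := st_PEQ
  have hPINJ : ST_PINJ := st_PINJ
  have hPALW : ST_PALW := st_PALW hPCON hPLK hPWD hPEQ hPINJ
  have hPNXT : ST_PNXT := st_PNXT
  have hPSUM : ST_PSUM := st_PSUM
  have hPACC : ST_PACC := st_PACC hPSUM hPWD
  have hPLOOK : ST_PLOOK := st_PLOOK hPEQ hPINJ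
  have hPCEL : ST_PCEL := st_PCEL hPRNG hPFLM hPWD
  have hPTAB : ST_PTAB := st_PTAB hPSTT hPLAB hPALW hPNXT hPACC hPLOOK hPSUM hPCEL hPNN hNUM hPFLM
  have hPROW : ST_PROW := st_PROW hPFLM hPLAB hPRNG hPWD hPNN hNUM
  have hPALG : ST_PALG := st_PALG hPTAB hPROW hPRNG hPWD hPSUM hPLOOK hPNN hPCEL
  have hTCMP : ST_TCMP := st_TCMP
  have hTFOL : ST_TFOL := st_TFOL
  have hTPAD : ST_TPAD := st_TPAD hTFOL hTCMP hPRNG hPFLM hPWD
  have hTUNA : ST_TUNA := st_TUNA
  have hTBIT : ST_TBIT := st_TBIT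
  have hTLNK : ST_TLNK := st_TLNK
  have hTPOL : ST_TPOL := st_TPOL
  exact st_FINAL hALG hPALG hTCMP hTPAD hTUNA hTBIT hTLNK hTPOL

end Pool.Agent.Results.MP_c7ded2_lc.SubexponentialTime
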